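import Pool.Agent.Helper23.QF.Goals

set_option autoImplicit false

namespace Pool.Agent.Helper35.QF

open _root_.Pool.Agent.Helper23.QF
open Polynomial

theorem gPADIC : GPADIC := by
  intro p hp k
  have key : ∃ z : ℤ_[p], z ^ 2 = ((1 + 8 * p * k : ℤ) : ℤ_[p]) := by
    set F : Polynomial ℤ_[p] := X ^ 2 - C (((1 + 8 * p * k : ℤ)) : ℤ_[p]) with hF
    have hder : F.derivative.aeval (1 : ℤ_[p]) = 2 := by
      simp [hF]
      norm_num
    have hval : F.aeval (1 : ℤ_[p]) = -(8 * (p : ℤ_[p]) * (k : ℤ_[p])) := by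
      simp [hF]
    have hnorm : ‖F.aeval (1 : ℤ_[p])‖ < ‖F.derivative.aeval (1 : ℤ_[p])‖ ^ 2 := by
      rw [hder, hval, norm_neg]
      have h2 : ‖(2 : ℤ_[p])‖ ≤ 1 := PadicInt.norm_le_one _
      have h20 : 0 < ‖(2 : ℤ_[p])‖ := by
        rw [norm_pos_iff]
        exact two_ne_zero
      have h8 : (8 * (p : ℤ_[p]) * (k : ℤ_[p])) = 2 * 2 * 2 * (p : ℤ_[p]) * (k : ℤ_[p]) := by
        norm_num
      rw [h8]
      simp only [norm_mul]
      have hp1 : ‖(p : ℤ_[p])‖ < 1 := by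
        rw [PadicInt.norm_p]
        exact inv_lt_one_of_one_lt₀ (by exact_mod_cast hp.out.one_lt)
      have hk : ‖(k : ℤ_[p])‖ ≤ 1 := PadicInt.norm_le_one _
      have h1 : ‖(2 : ℤ_[p])‖ * ‖(p : ℤ_[p])‖ * ‖(k : ℤ_[p])‖ < 1 := by
        have a1 : ‖(2 : ℤ_[p])‖ * ‖(p : ℤ_[p])‖ < 1 := by
          nlinarith [norm_nonneg (p : ℤ_[p])]
        nlinarith [norm_nonneg (k : ℤ_[p]), mul_nonneg h20.le (norm_nonneg (p : ℤ_[p]))]
      nlinarith [mul_pos h20 h20]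
    obtain ⟨z, hz, -⟩ := hensels_lemma hnorm
    refine ⟨z, ?_⟩
    have : z ^ 2 - ((1 + 8 * p * k : ℤ) : ℤ_[p]) = 0 := by
      simpa [hF] using hz
    linear_combination this
  obtain ⟨z, hz⟩ := key
  refine ⟨(z : ℚ_[p]), ?_⟩
  have := congrArg (fun t : ℤ_[p] => (t : ℚ_[p])) hz
  simp only [PadicInt.coe_pow, PadicInt.coe_intCast] at this
  rw [← pow_two, this]

end Pool.Agent.Helper35.QF
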