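import Pool.Agent.Helper23.QF.Goals

set_option autoImplicit false

namespace Pool.Agent.Helper35.QF

open _root_.Pool.Agent.Helper23.QF

/-- reduction of matrices modulo m -/
def red (m : ℕ) : Matrix (Fin 2) (Fin 2) ℤ →+* Matrix (Fin 2) (Fin 2) (ZMod m) :=
  (Int.castRingHom (ZMod m)).mapMatrix

/-- matrices reached by words -/
def Rch (a b m : ℕ) (g : Matrix (Fin 2) (Fin 2) (ZMod m)) : Prop :=
  ∃ w : List ℕ, Word a b w ∧ red m (M w) = g

theorem rch_one (a b m : ℕ) : Rch a b m 1 := ⟨[], by simp [Word], by simp [M_nil]⟩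

theorem rch_mul {a b m : ℕ} {g h : Matrix (Fin 2) (Fin 2) (ZMod m)} (hg : Rch a b m g)
    (hh : Rch a b m h) : Rch a b m (g * h) := by
  obtain ⟨v, hv, rfl⟩ := hg
  obtain ⟨w, hw, rfl⟩ := hh
  refine ⟨v ++ w, ?_, ?_⟩
  · intro x hx
    rcases List.mem_append.1 hx with h | h
    · exact hv x h
    · exact hw x h
  · rw [M_append, map_mul]

theorem rch_pow {a b m : ℕ} {g : Matrix (Fin 2) (Fin 2) (ZMod m)} (hg : Rch a b m g) (n : ℕ) :
    Rch a b m (g ^ n) := by
  induction n with
  | zero => rw [pow_zero]; exact rch_one a b m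
  | succ n ih => rw [pow_succ]; exact rch_mul ih hg

theorem rch_inv {a b m : ℕ} (hm : 0 < m) {g h : Matrix (Fin 2) (Fin 2) (ZMod m)}
    (hg : Rch a b m g) (h1 : g * h = 1) (h2 : h * g = 1) : Rch a b m h := by
  have : NeZero m := ⟨hm.ne'⟩
  have hfin : Finite (Matrix (Fin 2) (Fin 2) (ZMod m)) := by
    unfold Matrix
    infer_instance
  let u : (Matrix (Fin 2) (Fin 2) (ZMod m))ˣ := ⟨g, h, h1, h2⟩
  have hu : IsOfFinOrder u := isOfFinOrder_of_finite u
  have hpos := hu.orderOf_pos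
  have h3 : u ^ (orderOf u - 1) = u⁻¹ := by
    have : u ^ (orderOf u - 1) * u = 1 := by
      rw [← pow_succ, Nat.sub_add_cancel hpos, pow_orderOf_eq_one]
    exact eq_inv_of_mul_eq_one_left this
  have h4 : g ^ (orderOf u - 1) = h := by
    have := congrArg Units.val h3
    simpa [u] using this
  rw [← h4]
  exact rch_pow hg _

theorem lowpow (m : ℕ) (c : ℤ) (n : ℕ) :
    (red m !![1, 0; c, 1]) ^ n = red m !![1, 0; c * n, 1] := by
  rw [← map_pow]
  congr 1
  induction n with
  | zero =>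
    ext i j
    fin_cases i <;> fin_cases j <;> simp
  | succ n ih =>
    rw [pow_succ, ih]
    ext i j
    fin_cases i <;> fin_cases j <;> simp [Matrix.mul_apply, Fin.sum_univ_two]
    ring

theorem uppow (m : ℕ) (c : ℤ) (n : ℕ) :
    (red m !![1, c; 0, 1]) ^ n = red m !![1, c * n; 0, 1] := by
  rw [← map_pow]
  congr 1
  induction n with
  | zero =>
    ext i j
    fin_cases i <;> fin_cases j <;> simp
  | succ n ih =>
    rw [pow_succ, ih]
    ext i j
    fin_cases i <;> fin_cases j <;> simp [Matrix.mul_apply, Fin.sum_univ_two]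
    ring

theorem modnat (m : ℕ) (hm : 0 < m) (c : ℤ) : ∃ n : ℕ, (n : ZMod m) = (c : ZMod m) := by
  have : NeZero m := ⟨hm.ne'⟩
  exact ⟨((c : ZMod m)).val, ZMod.natCast_zmod_val _⟩

theorem gWORDEX : GWORDEX := by
  intro a b m i j hm
  have hA : Rch a b m (red m (mat a)) := ⟨[a], by simp [Word], by rw [M_singleton]⟩
  have hB : Rch a b m (red m (mat b)) := ⟨[b], by simp [Word], by rw [M_singleton]⟩
  have inv1 : ∀ c : ℕ, red m (mat c) * red m !![0, 1; 1, -(c : ℤ)] = 1 := by
    intro c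
    rw [← map_mul]
    have : mat c * !![0, 1; 1, -(c : ℤ)] = 1 := by
      ext i j
      fin_cases i <;> fin_cases j <;> simp [mat, Matrix.mul_apply, Fin.sum_univ_two]
    rw [this, map_one]
  have inv2 : ∀ c : ℕ, red m !![0, 1; 1, -(c : ℤ)] * red m (mat c) = 1 := by
    intro c
    rw [← map_mul]
    have : !![0, 1; 1, -(c : ℤ)] * mat c = 1 := by
      ext i j
      fin_cases i <;> fin_cases j <;> simp [mat, Matrix.mul_apply, Fin.sum_univ_two]
    rw [this, map_one]
  have hA' : Rch a b m (red m !![0, 1; 1, -(a : ℤ)]) := rch_inv hm hA (inv1 a) (inv2 a)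
  have hB' : Rch a b m (red m !![0, 1; 1, -(b : ℤ)]) := rch_inv hm hB (inv1 b) (inv2 b)
  have hL : Rch a b m (red m !![1, 0; (a : ℤ) - b, 1]) := by
    have := rch_mul hB' hA
    rw [← map_mul] at this
    convert this using 2
    ext i j
    fin_cases i <;> fin_cases j <;> simp [mat, Matrix.mul_apply, Fin.sum_univ_two]
    ring
  have hR : Rch a b m (red m !![1, (a : ℤ) - b; 0, 1]) := by
    have := rch_mul hA hB'
    rw [← map_mul] at this
    convert this using 2
    ext i j
    fin_cases i <;> fin_cases j <;> simp [mat, Matrix.mul_apply, Fin.sum_univ_two]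
    ring
  obtain ⟨nj, hnj⟩ := modnat m hm j
  obtain ⟨ni, hni⟩ := modnat m hm i
  have h1 := rch_pow hL nj
  have h2 := rch_pow hR ni
  rw [lowpow] at h1
  rw [uppow] at h2
  obtain ⟨u0, hu0, h3⟩ := rch_mul (rch_mul hA' h1) h2
  refine ⟨u0, hu0, fun k l => ?_⟩
  rw [← ZMod.intCast_eq_intCast_iff_dvd_sub]
  have h4 : red m !![1, 0; ((a : ℤ) - b) * nj, 1]
      = red m !![1, 0; ((a : ℤ) - b) * j, 1] := by
    ext p q
    fin_cases p <;> fin_cases q <;> simp [red, hnj]
  have h5 : red m !![1, ((a : ℤ) - b) * ni; 0, 1]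
      = red m !![1, ((a : ℤ) - b) * i; 0, 1] := by
    ext p q
    fin_cases p <;> fin_cases q <;> simp [red, hni]
  rw [h4, h5, ← map_mul, ← map_mul] at h3
  have := congrFun (congrFun h3 k) l
  simpa [red] using this.symm

end Pool.Agent.Helper35.QF
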